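import Pool.Agent.Q64.Bous.Att

/-!
# MP_f7c28d_an, Q1 (negated form): `P_θ 𝒜` is all of `L²`

For the semi-dissipative two-dimensional Boussinesq system on the torus every mean-free
`θ₀ ∈ L²` is the temperature component of a point of the attractor `𝒜`.

Proof: for the Galerkin system on finitely many modes the two-point problem `u(-n) = 0`,
`θ(0) = P_n θ₀` is solvable by Brouwer's fixed point theorem, since the temperature is transported
by orthogonal maps; the enstrophy and temperature norms are bounded uniformly, so that a
subsequence converges, for `n → ∞`, to a solution on the whole line through `θ₀`.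
-/

set_option autoImplicit false

namespace Pool.Agent.Results.MP_f7c28d_an.ProjectionOnto

open Pool.Agent.Q64.Bous

/-- For all `L, ν, g > 0` the set of temperature components of the points of `𝒜` is the set of
all mean-free functions of `L²`. -/
theorem result (L ν g : ℝ) (hL : 0 < L) (hν : 0 < ν) (_hg : 0 < g) :
    Prod.snd '' Attractor L ν g = {θ₀ : L2R | MeanFree θ₀} := by
  ext θ₀
  constructor
  · rintro ⟨p, hp, rfl⟩
    exact hp.2.1
  · intro h0
    obtain ⟨u₀, hu⟩ := mem_attractor (g := g) hL hν θ₀ h0
    exact ⟨(u₀, θ₀), hu, rfl⟩

end Pool.Agent.Results.MP_f7c28d_an.ProjectionOnto
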